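import Pool.Agent.R112.AbabSys

set_option autoImplicit false
set_option linter.unusedVariables false

/-!
# A superlinear forbidden 0-1 matrix with square-root `sm`

Let `P` be the matrix with rows `1010` and `0101`. Then `ex(n,P)/n → ∞` and
`√m ≤ sm(m,P) ≤ 6 √m` for all `m ≥ 1`.
-/

namespace Pool.Agent.Results.MP_f2a48e_co.AlternatingPattern

open Finset Filter

/-- A 0-1 matrix with `r` rows and `c` columns. -/
abbrev Mat (r c : ℕ) : Type := Fin r → Fin c → Bool

/-- `A` contains `P`: some submatrix of `A` (rows and columns chosen, order kept) equals `P` or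
becomes `P` after some ones are turned into zeros. -/
def Contains {r c r' c' : ℕ} (A : Mat r c) (P : Mat r' c') : Prop :=
  ∃ (f : Fin r' ↪o Fin r) (g : Fin c' ↪o Fin c), ∀ i j, P i j = true → A (f i) (g j) = true

/-- The number of 1-entries. -/
def ones {r c : ℕ} (A : Mat r c) : ℕ :=
  (univ.filter fun p : Fin r × Fin c => A p.1 p.2 = true).card

/-- `ex(n,P)`. -/
noncomputable def ex (n : ℕ) {r' c' : ℕ} (P : Mat r' c') : ℕ :=
  sSup {k | ∃ A : Mat n n, ¬ Contains A P ∧ ones A = k}

/-- `LSM(A,P)`: the largest number of ones in a `P`-avoiding matrix obtained from `A` by turning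
some ones into zeros. -/
noncomputable def LSM {r c r' c' : ℕ} (A : Mat r c) (P : Mat r' c') : ℕ :=
  sSup {k | ∃ B : Mat r c, (∀ i j, B i j = true → A i j = true) ∧ ¬ Contains B P ∧ ones B = k}

/-- `sm(m,P)`: the minimum of `LSM(A,P)` over all matrices `A` with exactly `m` ones. -/
noncomputable def sm (m : ℕ) {r' c' : ℕ} (P : Mat r' c') : ℕ :=
  sInf {k | ∃ (r c : ℕ) (A : Mat r c), ones A = m ∧ LSM A P = k}

/-- The alternating pattern. -/
def P0 : Mat 2 4 := ![![true, false, true, false], ![false, true, false, true]]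

lemma ones_le {r c : ℕ} (A : Mat r c) : ones A ≤ r * c := by
  unfold ones
  refine (Finset.card_filter_le _ _).trans ?_
  simp

lemma le_ex {n r' c' : ℕ} {P : Mat r' c'} (A : Mat n n) (h : ¬ Contains A P) :
    ones A ≤ ex n P := by
  apply le_csSup
  · refine ⟨n * n, ?_⟩
    rintro k ⟨B, _, rfl⟩
    exact ones_le B
  · exact ⟨A, h, rfl⟩

lemma le_LSM {r c r' c' : ℕ} {A : Mat r c} {P : Mat r' c'} (B : Mat r c)
    (h1 : ∀ i j, B i j = true → A i j = true) (h : ¬ Contains B P) :
    ones B ≤ LSM A P := by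
  apply le_csSup
  · refine ⟨r * c, ?_⟩
    rintro k ⟨B, _, _, rfl⟩
    exact ones_le B
  · exact ⟨B, h1, h, rfl⟩

/-- the occurrence of the pattern spelled out -/
lemma contains_P0 {r c : ℕ} (A : Mat r c) : Contains A P0 ↔ ∃ a b : Fin r, ∃ c₁ c₂ c₃ c₄ : Fin c,
    a < b ∧ c₁ < c₂ ∧ c₂ < c₃ ∧ c₃ < c₄ ∧ A a c₁ = true ∧ A b c₂ = true ∧ A a c₃ = true ∧
    A b c₄ = true := by
  constructor
  · rintro ⟨f, g, h⟩
    refine ⟨f 0, f 1, g 0, g 1, g 2, g 3, ?_, ?_, ?_, ?_, ?_, ?_, ?_, ?_⟩
    · exact f.strictMono (by decide)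
    · exact g.strictMono (by decide)
    · exact g.strictMono (by decide)
    · exact g.strictMono (by decide)
    · exact h 0 0 rfl
    · exact h 1 1 rfl
    · exact h 0 2 rfl
    · exact h 1 3 rfl
  · rintro ⟨a, b, c₁, c₂, c₃, c₄, hab, h12, h23, h34, m1, m2, m3, m4⟩
    have hf : StrictMono ![a, b] := by
      rw [Fin.strictMono_iff_lt_succ]
      intro i
      fin_cases i
      exact hab
    have hg : StrictMono ![c₁, c₂, c₃, c₄] := by
      rw [Fin.strictMono_iff_lt_succ]
      intro i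
      fin_cases i
      · exact h12
      · exact h23
      · exact h34
    refine ⟨OrderEmbedding.ofStrictMono _ hf, OrderEmbedding.ofStrictMono _ hg, ?_⟩
    intro i j hij
    fin_cases i <;> fin_cases j <;> first | exact m1 | exact m2 | exact m3 | exact m4 |
      exact absurd hij (by decide)

/-! ### The extremal function is superlinear -/

/-- order embedding of a finite linear order in `Fin n` -/
lemma exists_emb (α : Type) [Fintype α] [LinearOrder α] (n : ℕ) (h : Fintype.card α ≤ n) :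
    Nonempty (α ↪o Fin n) :=
  ⟨(Fintype.orderIsoFinOfCardEq α rfl).symm.toOrderEmbedding.trans (Fin.castLEOrderEmb h)⟩

lemma ex_ge_sys {k m s w : ℕ} (T : R112.Abab.Sys k m s w) (q n : ℕ) (h1 : q * (s * m) ≤ n)
    (h2 : q * w ≤ n) : q * (s * m) * (k + 1) ≤ ex n P0 := by
  classical
  let _ : Fintype (Fin q ×ₗ T.R) := inferInstanceAs (Fintype (Fin q × T.R))
  let _ : Fintype (Fin q ×ₗ T.C) := inferInstanceAs (Fintype (Fin q × T.C))
  have hc1 : Fintype.card (Fin q ×ₗ T.R) ≤ n := by
    have : Fintype.card (Fin q × T.R) ≤ n := by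
      rw [Fintype.card_prod, T.cardR, Fintype.card_fin]; exact h1
    exact this
  have hc2 : Fintype.card (Fin q ×ₗ T.C) ≤ n := by
    have : Fintype.card (Fin q × T.C) ≤ n := by
      rw [Fintype.card_prod, T.cardC, Fintype.card_fin]; exact h2
    exact this
  obtain ⟨f⟩ := exists_emb (Fin q ×ₗ T.R) n hc1
  obtain ⟨g⟩ := exists_emb (Fin q ×ₗ T.C) n hc2
  let A : Mat n n := fun i j => decide (∃ (u : Fin q) (x : T.R) (p : Fin (k + 1)),
    f (toLex (u, x)) = i ∧ g (toLex (u, T.on x p)) = j)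
  have hA : ∀ i j, A i j = true ↔ ∃ (u : Fin q) (x : T.R) (p : Fin (k + 1)),
    f (toLex (u, x)) = i ∧ g (toLex (u, T.on x p)) = j := fun i j => by
      simp only [A, decide_eq_true_eq]
  have hav : ¬ Contains A P0 := by
    rw [contains_P0]
    rintro ⟨a, b, c₁, c₂, c₃, c₄, hab, h12, h23, h34, m1, m2, m3, m4⟩
    rw [hA] at m1 m2 m3 m4
    obtain ⟨u, x, p₁, rfl, rfl⟩ := m1
    obtain ⟨v, y, p₂, rfl, rfl⟩ := m2
    obtain ⟨u', x', p₃, hx, rfl⟩ := m3
    obtain ⟨v', y', p₄, hy, rfl⟩ := m4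
    have hx' := (Prod.mk.injEq _ _ _ _).mp (toLex.injective (f.injective hx))
    have hy' := (Prod.mk.injEq _ _ _ _).mp (toLex.injective (f.injective hy))
    obtain ⟨rfl, rfl⟩ := hx'
    obtain ⟨rfl, rfl⟩ := hy'
    rw [g.lt_iff_lt, Prod.Lex.toLex_lt_toLex] at h12 h23 h34
    rw [f.lt_iff_lt, Prod.Lex.toLex_lt_toLex] at hab
    have huv : u' = v' := by
      rcases h12 with h | h
      · rcases h23 with h' | h'
        · exact absurd h h'.asymm
        · exact h'.1.symm
      · exact h.1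
    subst huv
    simp only [lt_self_iff_false, false_or, true_and] at h12 h23 h34 hab
    exact T.avoid _ _ hab p₁ p₂ p₃ p₄ h12 h23 h34
  refine le_trans ?_ (le_ex A hav)
  have hcard : Fintype.card (Fin q × T.R × Fin (k + 1)) = q * (s * m) * (k + 1) := by
    rw [Fintype.card_prod, Fintype.card_prod, T.cardR, Fintype.card_fin, Fintype.card_fin]
    ring
  rw [← hcard, ← Finset.card_univ]
  unfold ones
  apply Finset.card_le_card_of_injOn
    (fun z => (f (toLex (z.1, z.2.1)), g (toLex (z.1, T.on z.2.1 z.2.2))))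
  · rintro ⟨u, x, p⟩ _
    simp only [Finset.coe_filter, Finset.mem_univ, true_and, Set.mem_ofPred_eq]
    rw [hA]
    exact ⟨u, x, p, rfl, rfl⟩
  · rintro ⟨u, x, p⟩ _ ⟨u', x', p'⟩ _ h
    simp only [Prod.mk.injEq, EmbeddingLike.apply_eq_iff_eq] at h
    obtain ⟨⟨rfl, rfl⟩, _, h⟩ := h
    rw [(T.mono x).injective h]

lemma ex_large (k : ℕ) : ∃ N : ℕ, ∀ n ≥ N, (k + 1) * n ≤ 4 * ex n P0 := by
  obtain ⟨b, hb⟩ := R112.Abab.exists_sys k
  obtain ⟨s, w, hs, hw, ⟨T⟩⟩ := hb b
  set ρ := s * (b + 1) with hρ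
  have hρ0 : 0 < ρ := by positivity
  have hw' : w ≤ 2 * ρ := by
    rw [hρ]; nlinarith
  refine ⟨4 * ρ, fun n hn => ?_⟩
  have h1 : 2 * ρ * (n / (2 * ρ)) ≤ n := Nat.mul_div_le n (2 * ρ)
  have h2 : n < 2 * ρ * (n / (2 * ρ)) + 2 * ρ := by
    have := Nat.lt_mul_div_succ n (show 0 < 2 * ρ by omega)
    rw [mul_add] at this
    simpa using this
  have h3 := ex_ge_sys T (n / (2 * ρ)) n (by rw [← hρ]; nlinarith) (by
    calc n / (2 * ρ) * w ≤ n / (2 * ρ) * (2 * ρ) := Nat.mul_le_mul_left _ hw'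
      _ ≤ n := by rw [mul_comm]; exact h1)
  rw [← hρ] at h3
  have h4 : n ≤ 4 * (n / (2 * ρ) * ρ) := by
    have : 2 * ρ * (n / (2 * ρ)) = 2 * (n / (2 * ρ) * ρ) := by ring
    omega
  calc (k + 1) * n ≤ (k + 1) * (4 * (n / (2 * ρ) * ρ)) := Nat.mul_le_mul_left _ h4
    _ = 4 * (n / (2 * ρ) * ρ * (k + 1)) := by ring
    _ ≤ 4 * ex n P0 := Nat.mul_le_mul_left _ h3

theorem ex_superlinear : Tendsto (fun n : ℕ => (ex n P0 : ℝ) / n) atTop atTop := by
  rw [tendsto_atTop]
  intro C
  obtain ⟨k, hk⟩ := exists_nat_ge (4 * C)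
  obtain ⟨N, hN⟩ := ex_large k
  filter_upwards [eventually_ge_atTop (max N 1)] with n hn
  have hn1 : 1 ≤ n := le_of_max_le_right hn
  have hnN := hN n (le_of_max_le_left hn)
  have hn0 : (0 : ℝ) < n := by exact_mod_cast hn1
  rw [le_div_iff₀ hn0]
  have h1 : ((k : ℝ) + 1) * n ≤ 4 * ex n P0 := by exact_mod_cast hnN
  nlinarith

/-! ### The lower bound for `sm` -/

lemma LSM_lower {r c : ℕ} (A : Mat r c) : ones A ≤ LSM A P0 ^ 2 := by
  classical
  -- ones in a row
  let row : Fin r → Finset (Fin c) := fun i => univ.filter fun j => A i j = true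
  let N : Finset (Fin r) := univ.filter fun i => (row i).Nonempty
  have hsum : ones A = ∑ i ∈ N, (row i).card := by
    have h0 : ones A = ∑ i : Fin r, (row i).card := by
      unfold ones
      rw [Finset.card_filter, Fintype.sum_prod_type]
      apply Finset.sum_congr rfl
      intro i _
      rw [Finset.card_filter]
    rw [h0]
    symm
    apply Finset.sum_subset (Finset.subset_univ _)
    intro i _ hi
    simp only [N, Finset.mem_filter, Finset.mem_univ, true_and, Finset.not_nonempty_iff_eq_empty]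
      at hi
    rw [hi]; rfl
  -- every row is small
  have h1 : ∀ i, (row i).card ≤ LSM A P0 := by
    intro i
    let B : Mat r c := fun i' j => decide (i' = i) && A i' j
    have hB : ∀ i' j, B i' j = true ↔ i' = i ∧ A i' j = true := by
      intro i' j; simp [B]
    have hav : ¬ Contains B P0 := by
      rw [contains_P0]
      rintro ⟨a, b, c₁, c₂, c₃, c₄, hab, h12, h23, h34, m1, m2, m3, m4⟩
      rw [hB] at m1 m2
      rw [m1.1, m2.1] at hab
      exact lt_irrefl _ hab
    refine le_trans ?_ (le_LSM B (fun i' j h => ((hB _ _).1 h).2) hav)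
    unfold ones
    apply Finset.card_le_card_of_injOn (fun j => (i, j))
    · intro j hj
      simp only [row, Finset.coe_filter, Finset.mem_univ, true_and, Set.mem_ofPred_eq] at hj ⊢
      rw [hB]
      exact ⟨rfl, hj⟩
    · intro j _ j' _ h
      exact ((Prod.mk.injEq _ _ _ _).mp h).2
  -- number of nonempty rows
  have h2 : N.card ≤ LSM A P0 := by
    let B : Mat r c := fun i j => decide (∃ h : (row i).Nonempty, (row i).min' h = j)
    have hB : ∀ i j, B i j = true ↔ ∃ h : (row i).Nonempty, (row i).min' h = j := by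
      intro i j; simp only [B, decide_eq_true_eq]
    have hav : ¬ Contains B P0 := by
      rw [contains_P0]
      rintro ⟨a, b, c₁, c₂, c₃, c₄, hab, h12, h23, h34, m1, m2, m3, m4⟩
      rw [hB] at m1 m3
      obtain ⟨_, rfl⟩ := m1
      obtain ⟨_, h⟩ := m3
      rw [← h] at h23
      exact lt_asymm h12 h23
    have hBA : ∀ i j, B i j = true → A i j = true := by
      intro i j h
      rw [hB] at h
      obtain ⟨hn, rfl⟩ := h
      have := Finset.min'_mem _ hn
      simp only [row, Finset.mem_filter, Finset.mem_univ, true_and] at this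
      exact this
    refine le_trans ?_ (le_LSM B hBA hav)
    unfold ones
    apply Finset.card_le_card_of_surjOn (fun z => z.1)
    intro i hi
    simp only [N, Finset.coe_filter, Finset.mem_univ, true_and, Set.mem_ofPred_eq] at hi
    refine ⟨(i, (row i).min' hi), ?_, rfl⟩
    simp only [Finset.coe_filter, Finset.mem_univ, true_and, Set.mem_ofPred_eq]
    rw [hB]
    exact ⟨hi, rfl⟩
  calc ones A = ∑ i ∈ N, (row i).card := hsum
    _ ≤ ∑ i ∈ N, LSM A P0 := Finset.sum_le_sum fun i _ => h1 i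
    _ = N.card * LSM A P0 := by rw [Finset.sum_const, smul_eq_mul]
    _ ≤ LSM A P0 * LSM A P0 := Nat.mul_le_mul_right _ h2
    _ = LSM A P0 ^ 2 := by ring

/-! ### The upper bound for `sm` -/

/-- The matrix with antidiagonal blocks. -/
def blk (s m : ℕ) : Mat s m := fun r c => decide (r.1 + c.1 % s + 1 = s)

lemma blk_ones (s m : ℕ) (hs : 0 < s) : ones (blk s m) = m := by
  classical
  have h : ones (blk s m) = (univ : Finset (Fin m)).card := by
    unfold ones
    apply Finset.card_bij (fun z _ => z.2)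
    · intro z _; exact Finset.mem_univ _
    · rintro ⟨a, b⟩ h ⟨a', b'⟩ h' hb
      simp only [blk, decide_eq_true_eq, Finset.mem_filter, Finset.mem_univ, true_and] at h h' hb
      subst hb
      have : a = a' := Fin.ext (by omega)
      rw [this]
    · intro b _
      have := Nat.mod_lt b.1 hs
      refine ⟨(⟨s - 1 - b.1 % s, by omega⟩, b), ?_, rfl⟩
      simp only [blk, decide_eq_true_eq, Finset.mem_filter, Finset.mem_univ, true_and]
      omega
  rw [h]; simp

lemma blk_avoid (s m : ℕ) (hs : 0 < s) (hm : m ≤ s * s) (B : Mat s m)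
    (hB : ∀ i j, B i j = true → blk s m i j = true) (hav : ¬ Contains B P0) :
    ones B ≤ 3 * s := by
  classical
  let ρ : Fin m → Fin s := fun c => ⟨s - 1 - c.1 % s, by omega⟩
  have hρ : ∀ i j, B i j = true → ρ j = i := by
    intro i j h
    have h1 := hB i j h
    simp only [blk, decide_eq_true_eq] at h1
    have := Nat.mod_lt j.1 hs
    ext
    simp only [ρ]
    omega
  let D : Finset (Fin m) := univ.filter fun c => B (ρ c) c = true
  have hD : ones B ≤ D.card := by
    unfold ones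
    apply Finset.card_le_card_of_injOn (fun z => z.2)
    · rintro ⟨i, j⟩ h
      simp only [Finset.coe_filter, Finset.mem_univ, true_and, Set.mem_ofPred_eq, D] at h ⊢
      rw [hρ i j h]; exact h
    · rintro ⟨i, j⟩ h ⟨i', j'⟩ h' hj
      simp only [Finset.coe_filter, Finset.mem_univ, true_and, Set.mem_ofPred_eq] at h h' hj
      subst hj
      rw [← hρ i j h, ← hρ i' j h']
  let S1 : Finset (Fin m) := D.filter fun c => ∀ c' ∈ D, ρ c' = ρ c → c' ≤ c
  let S2 : Finset (Fin m) := D.filter fun c => ∀ c' ∈ D, ρ c' = ρ c → c ≤ c'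
  let S3 : Finset (Fin m) := D.filter fun c => ¬ (∀ c' ∈ D, ρ c' = ρ c → c' ≤ c) ∧
    ¬ (∀ c' ∈ D, ρ c' = ρ c → c ≤ c')
  have hcov : D ⊆ S1 ∪ S2 ∪ S3 := by
    intro c hc
    simp only [S1, S2, S3, Finset.mem_union, Finset.mem_filter]
    tauto
  have h1 : S1.card ≤ s := by
    have : S1.card ≤ (univ : Finset (Fin s)).card := by
      apply Finset.card_le_card_of_injOn ρ (by intro _ _; simp)
      intro c hc c' hc' h
      simp only [S1, Finset.coe_filter, Set.mem_ofPred_eq] at hc hc'
      exact le_antisymm (hc'.2 c hc.1 h) (hc.2 c' hc'.1 h.symm)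
    simpa using this
  have h2 : S2.card ≤ s := by
    have : S2.card ≤ (univ : Finset (Fin s)).card := by
      apply Finset.card_le_card_of_injOn ρ (by intro _ _; simp)
      intro c hc c' hc' h
      simp only [S2, Finset.coe_filter, Set.mem_ofPred_eq] at hc hc'
      exact le_antisymm (hc.2 c' hc'.1 h.symm) (hc'.2 c hc.1 h)
    simpa using this
  have key : ∀ c c' : Fin m, c ∈ S3 → c' ∈ S3 → c.1 / s = c'.1 / s → c' < c → False := by
    intro c c' hc hc' hdiv hlt
    simp only [S3, Finset.mem_filter, not_forall, not_le] at hc hc'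
    obtain ⟨hcD, _, ⟨c1, hc1D, hc1ρ, hc1⟩⟩ := hc
    obtain ⟨hcD', ⟨c4, hc4D, hc4ρ, hc4⟩, _⟩ := hc'
    have hmod1 : c1.1 % s = c.1 % s := by
      have := congrArg Fin.val hc1ρ
      simp only [ρ] at this
      have := Nat.mod_lt c1.1 hs
      have := Nat.mod_lt c.1 hs
      omega
    have hmod4 : c4.1 % s = c'.1 % s := by
      have := congrArg Fin.val hc4ρ
      simp only [ρ] at this
      have := Nat.mod_lt c4.1 hs
      have := Nat.mod_lt c'.1 hs
      omega
    have e1 := Nat.div_add_mod c1.1 s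
    have e2 := Nat.div_add_mod c.1 s
    have e3 := Nat.div_add_mod c'.1 s
    have e4 := Nat.div_add_mod c4.1 s
    have hd1 : c1.1 / s < c.1 / s := by
      by_contra hcon
      push Not at hcon
      have := Nat.mul_le_mul_left s hcon
      have h : c1.1 < c.1 := hc1
      omega
    have hd4 : c'.1 / s < c4.1 / s := by
      by_contra hcon
      push Not at hcon
      have := Nat.mul_le_mul_left s hcon
      have h : c'.1 < c4.1 := hc4
      omega
    have l1 := Nat.mod_lt c1.1 hs
    have l2 := Nat.mod_lt c.1 hs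
    have l3 := Nat.mod_lt c'.1 hs
    have l4 := Nat.mod_lt c4.1 hs
    have hA : c1 < c' := by
      have := Nat.mul_le_mul_left s (Nat.succ_le_of_lt hd1)
      rw [Nat.mul_succ] at this
      rw [hdiv] at this
      show c1.1 < c'.1
      omega
    have hB4 : c < c4 := by
      have := Nat.mul_le_mul_left s (Nat.succ_le_of_lt hd4)
      rw [Nat.mul_succ, ← hdiv] at this
      show c.1 < c4.1
      omega
    have hrow : ρ c < ρ c' := by
      show s - 1 - c.1 % s < s - 1 - c'.1 % s
      have h : c'.1 < c.1 := hlt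
      rw [hdiv] at e2
      omega
    apply hav
    rw [contains_P0]
    refine ⟨ρ c, ρ c', c1, c', c, c4, hrow, hA, hlt, hB4, ?_, ?_, ?_, ?_⟩
    · rw [← hc1ρ]; exact (Finset.mem_filter.1 hc1D).2
    · exact (Finset.mem_filter.1 hcD').2
    · exact (Finset.mem_filter.1 hcD).2
    · rw [← hc4ρ]; exact (Finset.mem_filter.1 hc4D).2
  have h3 : S3.card ≤ s := by
    have : S3.card ≤ (range s).card := by
      apply Finset.card_le_card_of_injOn (fun c => c.1 / s)
      · intro c _
        simp only [Finset.coe_range, Set.mem_Iio]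
        exact Nat.div_lt_of_lt_mul (lt_of_lt_of_le c.2 hm)
      · intro c hc c' hc' h
        by_contra hne
        rcases lt_or_gt_of_ne hne with h' | h'
        · exact key c' c (by simpa using hc') (by simpa using hc) h.symm h'
        · exact key c c' (by simpa using hc) (by simpa using hc') h h'
    simpa using this
  calc ones B ≤ D.card := hD
    _ ≤ (S1 ∪ S2 ∪ S3).card := Finset.card_le_card hcov
    _ ≤ (S1 ∪ S2).card + S3.card := Finset.card_union_le _ _
    _ ≤ S1.card + S2.card + S3.card := by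
        have := Finset.card_union_le S1 S2
        omega
    _ ≤ 3 * s := by omega

lemma sm_upper (m : ℕ) (hm : 1 ≤ m) : (sm m P0 : ℝ) ≤ 6 * Real.sqrt m := by
  set s := Nat.sqrt (m - 1) + 1 with hs
  have hs1 : m ≤ s * s := by
    have := Nat.lt_succ_sqrt (m - 1)
    rw [← Nat.succ_eq_add_one] at hs
    rw [hs]
    omega
  have hLSM : LSM (blk s m) P0 ≤ 3 * s := by
    apply csSup_le'
    rintro k ⟨B, hB, hav, rfl⟩
    exact blk_avoid s m (by omega) hs1 B hB hav
  have h1 : sm m P0 ≤ 3 * s := by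
    refine le_trans (Nat.sInf_le ⟨s, m, blk s m, blk_ones s m (by omega), rfl⟩) hLSM
  have h2 : (s : ℝ) ≤ 2 * Real.sqrt m := by
    have h3 : (Nat.sqrt (m - 1) : ℝ) ≤ Real.sqrt m := by
      refine le_trans (Real.nat_sqrt_le_real_sqrt) (Real.sqrt_le_sqrt ?_)
      have : m - 1 ≤ m := Nat.sub_le _ _
      exact_mod_cast this
    have h4 : (1 : ℝ) ≤ Real.sqrt m := by
      rw [Real.one_le_sqrt]
      exact_mod_cast hm
    rw [hs]
    push_cast
    linarith
  have h5 : (sm m P0 : ℝ) ≤ 3 * s := by exact_mod_cast h1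
  linarith

lemma sm_lower (m : ℕ) : Real.sqrt m ≤ (sm m P0 : ℝ) := by
  have hne : {k | ∃ (r c : ℕ) (A : Mat r c), ones A = m ∧ LSM A P0 = k}.Nonempty :=
    ⟨_, 1, m, blk 1 m, blk_ones 1 m one_pos, rfl⟩
  obtain ⟨r, c, A, h1, h2⟩ := Nat.sInf_mem hne
  have h3 := LSM_lower A
  rw [h1, h2] at h3
  rw [Real.sqrt_le_left (by positivity)]
  show (m : ℝ) ≤ ((sm m P0 : ℕ) : ℝ) ^ 2
  exact_mod_cast h3

/-- The matrix `P0` with rows `1010` and `0101` satisfies `ex(n,P0) = ω(n)` and
`sm(m,P0) = Θ(√m)`; in fact `√m ≤ sm(m,P0) ≤ 6√m` for every `m ≥ 1`. -/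
theorem result :
    Tendsto (fun n : ℕ => (ex n P0 : ℝ) / n) atTop atTop ∧
    ∀ m : ℕ, 1 ≤ m → Real.sqrt m ≤ (sm m P0 : ℝ) ∧ (sm m P0 : ℝ) ≤ 6 * Real.sqrt m :=
  ⟨ex_superlinear, fun m hm => ⟨sm_lower m, sm_upper m hm⟩⟩

end Pool.Agent.Results.MP_f2a48e_co.AlternatingPattern
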